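import Mathlib

/-!
A biorthogonal sequence with dense span in a separable infinite-dimensional normed space.
-/

open Filter Topology Set

namespace Pool.Agent.P.MP_24d2d6_an.EV

variable {𝕜 X : Type*} [RCLike 𝕜] [NormedAddCommGroup X] [NormedSpace 𝕜 X]

theorem exists_indep [TopologicalSpace.SeparableSpace X] (hX : ¬ FiniteDimensional 𝕜 X) :
    ∃ y : ℕ → X, LinearIndependent 𝕜 y ∧
      Dense ((Submodule.span 𝕜 (range y) : Submodule 𝕜 X) : Set X) := by
  obtain ⟨s, hsc, hsd⟩ := TopologicalSpace.exists_countable_dense X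
  obtain ⟨b, hbs, hsp, hli⟩ := exists_linearIndependent 𝕜 s
  have hd : Dense ((Submodule.span 𝕜 b : Submodule 𝕜 X) : Set X) := by
    rw [hsp]; exact hsd.mono Submodule.subset_span
  have hinf : b.Infinite := by
    intro hfin
    have h1 : FiniteDimensional 𝕜 (Submodule.span 𝕜 b) := FiniteDimensional.span_of_finite 𝕜 hfin
    have h2 : IsClosed ((Submodule.span 𝕜 b : Submodule 𝕜 X) : Set X) :=
      Submodule.closed_of_finiteDimensional _
    have h3 : Submodule.span 𝕜 b = ⊤ := by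
      rw [eq_top_iff]
      intro x _
      have h4 := hd x
      rw [h2.closure_eq] at h4
      exact h4
    rw [h3] at h1
    exact hX (Module.Finite.equiv (Submodule.topEquiv (R := 𝕜) (M := X)))
  have : Countable b := (hsc.mono hbs).to_subtype
  have : Infinite b := hinf.to_subtype
  obtain ⟨den⟩ := nonempty_denumerable b
  let q : ℕ ≃ b := (Denumerable.eqv b).symm
  refine ⟨fun n => (q n : X), hli.comp q q.injective, ?_⟩
  have h5 : range (fun n => (q n : X)) = b := by
    ext x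
    constructor
    · rintro ⟨n, rfl⟩; exact (q n).2
    · intro hx; exact ⟨q.symm ⟨x, hx⟩, by simp⟩
  rw [h5]; exact hd

theorem exists_tri (y : ℕ → X) (hy : LinearIndependent 𝕜 y) (n : ℕ) :
    ∃ g : X →L[𝕜] 𝕜, g (y n) = 1 ∧ ∀ j < n, g (y j) = 0 := by
  have h1 : y n ∉ Submodule.span 𝕜 (y '' Iio n) := hy.notMem_span_image (by simp)
  obtain ⟨φ, hφ1, hφ2⟩ := Submodule.exists_le_ker_of_notMem h1
  let W : Submodule 𝕜 X := Submodule.span 𝕜 (y '' Iic n)
  have : FiniteDimensional 𝕜 W := FiniteDimensional.span_of_finite 𝕜 ((finite_Iic n).image y)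
  obtain ⟨g, hg, -⟩ := exists_extension_norm_eq W
    (LinearMap.toContinuousLinearMap (φ.domRestrict W))
  have h2 : ∀ j ≤ n, g (y j) = φ (y j) := fun j hj =>
    hg ⟨y j, Submodule.subset_span ⟨j, hj, rfl⟩⟩
  refine ⟨(φ (y n))⁻¹ • g, ?_, fun j hj => ?_⟩
  · simp [h2 n le_rfl, inv_mul_cancel₀ hφ1]
  · have h3 : φ (y j) = 0 := hφ2 (Submodule.subset_span ⟨j, hj, rfl⟩)
    simp [h2 j hj.le, h3]

/-- Gram–Schmidt against a triangular family of functionals. -/
noncomputable def gs (y : ℕ → X) (g : ℕ → X →L[𝕜] 𝕜) : ℕ → X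
  | n => y n - ∑ i : Fin n, g i (y n) • gs y g i
termination_by n => n
decreasing_by exact i.2

theorem gs_eq (y : ℕ → X) (g : ℕ → X →L[𝕜] 𝕜) (n : ℕ) :
    gs y g n = y n - ∑ i ∈ Finset.range n, g i (y n) • gs y g i := by
  rw [gs, Finset.sum_range]

theorem gs_bio (y : ℕ → X) (g : ℕ → X →L[𝕜] 𝕜) (h1 : ∀ n, g n (y n) = 1)
    (h0 : ∀ n, ∀ j < n, g n (y j) = 0) (j : ℕ) :
    ∀ i, g i (gs y g j) = if i = j then 1 else 0 := by
  induction j using Nat.strong_induction_on with
  | _ j ih =>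
    intro i
    rw [gs_eq, map_sub, map_sum]
    have h2 : ∑ l ∈ Finset.range j, g i (g l (y j) • gs y g l)
        = ∑ l ∈ Finset.range j, if i = l then g l (y j) else 0 := by
      refine Finset.sum_congr rfl fun l hl => ?_
      rw [map_smul, ih l (Finset.mem_range.1 hl) i]
      split_ifs <;> simp
    rw [h2, Finset.sum_ite_eq]
    rcases lt_trichotomy i j with h | h | h
    · simp [h, h.ne]
    · simp [h, h1]
    · simp [h.ne', h0 i j h, h.not_gt]

theorem exists_bio [TopologicalSpace.SeparableSpace X] (hX : ¬ FiniteDimensional 𝕜 X) :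
    ∃ (e : ℕ → X) (f : ℕ → X →L[𝕜] 𝕜), (∀ i j, f i (e j) = if i = j then 1 else 0) ∧
      Dense ((Submodule.span 𝕜 (range e) : Submodule 𝕜 X) : Set X) := by
  obtain ⟨y, hy, hd⟩ := exists_indep hX
  choose g hg1 hg0 using exists_tri y hy
  refine ⟨gs y g, g, fun i j => gs_bio y g hg1 hg0 j i, hd.mono ?_⟩
  refine Submodule.span_le.2 ?_
  rintro _ ⟨n, rfl⟩
  have h1 : y n = gs y g n + ∑ i ∈ Finset.range n, g i (y n) • gs y g i := by
    rw [gs_eq y g n]; abel
  rw [h1]
  exact Submodule.add_mem _ (Submodule.subset_span ⟨n, rfl⟩)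
    (Submodule.sum_mem _ fun i _ => Submodule.smul_mem _ _ (Submodule.subset_span ⟨i, rfl⟩))

end Pool.Agent.P.MP_24d2d6_an.EV
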