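import Pool.Agent.P.MP_24d2d6_an.EV.Rot
import Pool.Agent.P.MP_24d2d6_an.Abstract

/-!
The counterexample on an arbitrary separable infinite-dimensional Banach space.
-/

open Filter Topology Set

namespace Pool.Agent.P.MP_24d2d6_an.EV

variable {𝕜 X : Type*} [RCLike 𝕜] [NormedAddCommGroup X] [NormedSpace 𝕜 X]

theorem abstract_family {T T' : X →L[𝕜] X} (hTT' : T * T' = 1) (hT'T : T' * T = 1)
    (b : ℕ → X →L[𝕜] 𝕜) (hb : ∀ k x, b k (T x) = b k x) (x₀ : X)
    (hx₀ : ∀ x, (∀ k, b k x = b k x₀) → Tendsto (fun n : ℕ => ‖(T ^ n) x‖) atTop atTop)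
    (θ : ℕ → ℕ) (hθ : StrictMono θ) (D : Set X) (hD : Dense D)
    (hper : ∀ x ∈ D, ∀ᶠ n in atTop, (T ^ θ n) x = x) :
    IsQuasiRigid T ∧ ∀ Λ : X →L[𝕜] X, ∃ h, MemOmega T h ∧ ¬ MemSOTClosureOrbit T Λ h := by
  let N : Submodule 𝕜 X := ⨅ k, (b k).ker
  have hN : IsClosed (N : Set X) := by
    rw [Submodule.coe_iInf]
    exact isClosed_iInter fun k => (b k).isClosed_ker
  have hmem : ∀ x y : X, N.mkQL x = N.mkQL y ↔ ∀ k, b k x = b k y := by
    intro x y
    rw [Submodule.mkQL_apply, Submodule.mkQL_apply, Submodule.mkQ_apply, Submodule.mkQ_apply,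
      Submodule.Quotient.eq, Submodule.mem_iInf]
    refine forall_congr' fun k => ?_
    rw [LinearMap.mem_ker, map_sub, sub_eq_zero]
    rfl
  exact abstract_counterexample (Y := X ⧸ N) hTT' hT'T N.mkQL
    (fun x => (hmem _ _).2 fun k => hb k x) x₀ (fun x hx => hx₀ x ((hmem _ _).1 hx)) θ hθ D hD hper

theorem exists_thresholds (A : ℕ → ℝ) :
    ∃ N : ℕ → ℕ, StrictMono N ∧ ∀ k, 0 < N k ∧ A k ≤ N k := by
  refine ⟨fun k => ∑ j ∈ Finset.range (k + 1), (⌈A j⌉₊ + 1), strictMono_nat_of_lt_succ fun k => ?_,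
    fun k => ?_⟩
  · rw [Finset.sum_range_succ _ (k + 1)]; omega
  · dsimp only
    rw [Finset.sum_range_succ]
    refine ⟨by omega, (Nat.le_ceil _).trans (Nat.cast_le.2 (by omega))⟩

theorem exists_window {N : ℕ → ℕ} (hN : StrictMono N) (M n : ℕ) (h : N M ≤ n) :
    ∃ k, M ≤ k ∧ N k ≤ n ∧ n < N (k + 1) := by
  have hex : ∃ j, n < N (j + 1) := ⟨n, Nat.lt_of_succ_le hN.le_apply⟩
  have h1 := Nat.find_spec hex
  have h2 : M ≤ Nat.find hex := Nat.lt_succ_iff.1 (hN.lt_iff_lt.1 (h.trans_lt h1))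
  refine ⟨Nat.find hex, h2, ?_, h1⟩
  rcases Nat.eq_zero_or_pos (Nat.find hex) with h0 | h0
  · rw [h0]; exact (hN.monotone (Nat.zero_le M)).trans h
  · have h3 := Nat.find_min hex (Nat.pred_lt h0.ne')
    rw [← Nat.succ_eq_add_one, Nat.succ_pred_eq_of_pos h0] at h3
    exact not_lt.1 h3

theorem sin_lower {N N' n : ℝ} (h0 : 0 < N) (h1 : N ≤ n) (h2 : n ≤ N') :
    N / N' ≤ |Real.sin (n * (2 * Real.pi / (4 * N')))| := by
  have hN' : 0 < N' := by linarith
  have hpi := Real.pi_pos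
  have h3 : n * (2 * Real.pi / (4 * N')) = Real.pi / 2 * (n / N') := by field_simp; ring
  have h4 : n / N' ≤ 1 := (div_le_one hN').2 h2
  have h5 : N / N' ≤ n / N' := by gcongr
  have h6 : 0 ≤ n / N' := div_nonneg (by linarith) hN'.le
  have h7 := Real.mul_le_sin (x := Real.pi / 2 * (n / N')) (by positivity)
    (mul_le_of_le_one_right (by positivity) h4)
  have h8 : 2 / Real.pi * (Real.pi / 2 * (n / N')) = n / N' := by field_simp
  rw [h3]
  exact h5.trans ((h8 ▸ h7).trans (le_abs_self _))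

theorem norm_arith {k w β N N' q : ℝ} (hk : 0 ≤ k) (hw : 1 ≤ w) (hβ : 0 < β) (hβ1 : β ≤ 1)
    (hN : 0 < N) (hNN : N ≤ N') (hq : 0 < q) (hA : 8 * (k + 1) * w ^ 3 / (q * β) ≤ N) :
    2 * Real.pi / (4 * N') * (w + k * w * N' / (β * N) * w) * w ≤ q / 4 := by
  have hN' : 0 < N' := by linarith
  have hpi := Real.pi_pos
  have hpi4 := Real.pi_le_four
  have h1 : 2 * Real.pi / (4 * N') * (w + k * w * N' / (β * N) * w) * w
      = Real.pi / 2 * (w ^ 2 / N' + k * w ^ 3 / (β * N)) := by field_simp; ring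
  have h2 : w ^ 2 / N' ≤ w ^ 3 / (β * N) := by
    have h3 : w ^ 2 ≤ w ^ 3 := pow_le_pow_right₀ hw (by norm_num)
    have h4 : β * N ≤ N' := (mul_le_of_le_one_left hN.le hβ1).trans hNN
    gcongr
  have h5 : (k + 1) * w ^ 3 / (β * N) ≤ q / 8 := by
    rw [div_le_iff₀ (by positivity)] at hA ⊢
    nlinarith
  have h6 : w ^ 2 / N' + k * w ^ 3 / (β * N) ≤ q / 8 := by
    refine le_trans ?_ h5
    have h7 : (k + 1) * w ^ 3 / (β * N) = w ^ 3 / (β * N) + k * w ^ 3 / (β * N) := by ring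
    linarith
  rw [h1]
  have h8 : Real.pi / 2 * (w ^ 2 / N' + k * w ^ 3 / (β * N)) ≤ 2 * (q / 8) := by
    have h9 : Real.pi / 2 ≤ 2 := by linarith
    gcongr
  linarith

theorem counter_of_bio [CompleteSpace X] (e : ℕ → X) (f : ℕ → X →L[𝕜] 𝕜)
    (hef : ∀ i j, f i (e j) = if i = j then 1 else 0)
    (hd : Dense ((Submodule.span 𝕜 (range e) : Submodule 𝕜 X) : Set X)) :
    ∃ T : X →L[𝕜] X, IsQuasiRigid T ∧
      ∀ Λ : X →L[𝕜] X, ∃ h, MemOmega T h ∧ ¬ MemSOTClosureOrbit T Λ h := by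
  have hne : ∀ i j, i ≠ j → f i (e j) = 0 := fun i j h => by rw [hef, if_neg h]
  have heq : ∀ i, f i (e i) = 1 := fun i => by rw [hef, if_pos rfl]
  obtain ⟨w, hw1, hwf, hwb, hwe, hwg⟩ : ∃ w : ℕ → ℝ, (∀ k, 1 ≤ w k) ∧
      (∀ k, ‖f (3 * k)‖ + ‖f (3 * k + 1)‖ ≤ w k) ∧ (∀ k, ‖f (3 * k + 2)‖ ≤ w k) ∧
      (∀ k, ‖e (3 * k)‖ + ‖e (3 * k + 1)‖ ≤ w k) ∧ (∀ k, ‖e (3 * k + 2)‖ ≤ w k) := by
    refine ⟨fun k => 1 + (‖f (3 * k)‖ + ‖f (3 * k + 1)‖) + ‖f (3 * k + 2)‖
      + (‖e (3 * k)‖ + ‖e (3 * k + 1)‖) + ‖e (3 * k + 2)‖, ?_, ?_, ?_, ?_, ?_⟩ <;>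
    · intro k
      have h1 := norm_nonneg (f (3 * k))
      have h2 := norm_nonneg (f (3 * k + 1))
      have h3 := norm_nonneg (f (3 * k + 2))
      have h4 := norm_nonneg (e (3 * k))
      have h5 := norm_nonneg (e (3 * k + 1))
      have h6 := norm_nonneg (e (3 * k + 2))
      dsimp only
      linarith
  have hw0 : ∀ k, 0 < w k := fun k => zero_lt_one.trans_le (hw1 k)
  obtain ⟨β, hβ⟩ : ∃ β : ℕ → ℝ, ∀ k, β k = (1 / 2) ^ k / w k := ⟨_, fun _ => rfl⟩
  have hβ0 : ∀ k, 0 < β k := fun k => by rw [hβ]; exact div_pos (by positivity) (hw0 k)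
  have hβ1 : ∀ k, β k ≤ 1 := fun k => by
    rw [hβ, div_le_one (hw0 k)]
    exact (pow_le_one₀ (by norm_num) (by norm_num)).trans (hw1 k)
  obtain ⟨x₀, hx₀⟩ : ∃ x₀ : X, ∀ k, f (3 * k + 2) x₀ = (β k : 𝕜) := by
    have h1 : Summable fun k => (β k : 𝕜) • e (3 * k + 2) := by
      refine Summable.of_norm_bounded summable_geometric_two fun k => ?_
      rw [norm_smul, RCLike.norm_ofReal, abs_of_pos (hβ0 k)]
      refine (mul_le_mul_of_nonneg_left (hwg k) (hβ0 k).le).trans_eq ?_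
      rw [hβ, div_mul_cancel₀ _ (hw0 k).ne']
    refine ⟨∑' k, (β k : 𝕜) • e (3 * k + 2), fun k => ?_⟩
    refine ((f (3 * k + 2)).hasSum h1.hasSum).unique ?_
    have h2 := hasSum_single (f := fun j => f (3 * k + 2) ((β j : 𝕜) • e (3 * j + 2))) k
      fun j hj => by rw [map_smul, hne _ _ (by omega), smul_zero]
    rwa [map_smul, heq, smul_eq_mul, mul_one] at h2
  obtain ⟨N, hN, hNA⟩ := exists_thresholds fun k => 8 * (k + 1) * w k ^ 3 / ((1 / 2) ^ k * β k)
  have hN0 : ∀ k, (0 : ℝ) < N k := fun k => Nat.cast_pos.2 (hNA k).1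
  obtain ⟨P, hP⟩ : ∃ P : ℕ → ℝ, ∀ k, P k = k * w k * N (k + 1) / (β k * N k) := ⟨_, fun _ => rfl⟩
  have hP0 : ∀ k, 0 ≤ P k := fun k => by
    have h1 := hw0 k
    have h2 := hβ0 k
    rw [hP]; positivity
  let S : Sys 𝕜 X :=
    { E := fun k => e (3 * k)
      F := fun k => e (3 * k + 1)
      p := fun k => f (3 * k) - (P k : 𝕜) • f (3 * k + 2)
      v := fun k => f (3 * k + 1)
      b := fun k => f (3 * k + 2)
      a := fun k => 2 * Real.pi / (4 * N (k + 1))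
      pE := fun i j => by
        rw [sub_apply, smul_apply, hne (3 * i + 2) _ (by omega), smul_zero, sub_zero, hef]
        exact if_congr (by omega) rfl rfl
      pF := fun i j => by
        rw [sub_apply, smul_apply, hne _ _ (by omega), hne _ _ (by omega), smul_zero, sub_zero]
      vE := fun i j => hne _ _ (by omega)
      vF := fun i j => by rw [hef]; exact if_congr (by omega) rfl rfl
      bE := fun i j => hne _ _ (by omega)
      bF := fun i j => hne _ _ (by omega) }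
  have hK : ∀ k, ‖S.K k‖ ≤ (1 / 2) ^ k / 4 := by
    intro k
    have ha : 0 ≤ S.a k := by
      change 0 ≤ 2 * Real.pi / (4 * N (k + 1))
      have := Real.pi_pos
      positivity
    have h1 : ‖S.p k‖ + ‖S.v k‖ ≤ w k + P k * w k := by
      have h2 : ‖S.p k‖ ≤ ‖f (3 * k)‖ + P k * w k := by
        refine (norm_sub_le _ _).trans (add_le_add le_rfl ?_)
        rw [norm_smul, RCLike.norm_ofReal, abs_of_nonneg (hP0 k)]
        exact mul_le_mul_of_nonneg_left (hwb k) (hP0 k)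
      have h3 : ‖S.v k‖ = ‖f (3 * k + 1)‖ := rfl
      have h4 := hwf k
      linarith
    have h5 : ‖S.E k‖ + ‖S.F k‖ ≤ w k := hwe k
    have h6 := hw0 k
    have h7 := hP0 k
    refine (S.norm_K_le k ha).trans (le_trans (b := S.a k * (w k + P k * w k) * w k) ?_ ?_)
    · gcongr
    · rw [hP]
      exact norm_arith (Nat.cast_nonneg k) (hw1 k) (hβ0 k) (hβ1 k) (hN0 k)
        (Nat.cast_le.2 (hN.monotone k.le_succ)) (by positivity) (hNA k).2
  have hgeo : HasSum (fun k : ℕ => ((1 / 2) ^ k / 4 : ℝ)) (2 / 4) := hasSum_geometric_two.div_const 4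
  have hs : Summable S.K := Summable.of_norm_bounded hgeo.summable hK
  have hlt : ‖-∑' k, S.K k‖ < 1 := by
    rw [norm_neg]
    exact (tsum_of_norm_bounded hgeo hK).trans_lt (by norm_num)
  have hu : ((Units.oneSub _ hlt : (X →L[𝕜] X)ˣ) : X →L[𝕜] X) = S.T := by
    rw [Units.val_oneSub, sub_neg_eq_add]; rfl
  refine ⟨S.T, abstract_family (T' := ((Units.oneSub _ hlt)⁻¹ : (X →L[𝕜] X)ˣ))
    (by rw [← hu]; exact Units.mul_inv _) (by rw [← hu]; exact Units.inv_mul _)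
    S.b (Sys.b_T hs) x₀ (fun x hx => ?_) (fun n => (n + 1).factorial)
    (fun a b hab => (Nat.factorial_lt a.succ_pos).2 (Nat.succ_lt_succ hab)) _ hd fun x hx => ?_⟩
  · refine tendsto_atTop.2 fun C => ?_
    obtain ⟨M, hM⟩ := exists_nat_ge (C + 2 * ‖x‖)
    refine eventually_atTop.2 ⟨N M, fun n hn => ?_⟩
    obtain ⟨k, hMk, h1, h2⟩ := exists_window hN M n hn
    have h3 := Sys.lower hs k x n
    have h4 : (N k : ℝ) / N (k + 1) ≤ |Real.sin (n * S.a k)| :=
      sin_lower (hN0 k) (Nat.cast_le.2 h1) (Nat.cast_le.2 h2.le)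
    have h5 : P k * β k - w k * ‖x‖ ≤ ‖S.p k x‖ := by
      have h6 : S.p k x = f (3 * k) x - ((P k * β k : ℝ) : 𝕜) := by
        have h7 : f (3 * k + 2) x = (β k : 𝕜) := (hx k).trans (hx₀ k)
        change f (3 * k) x - (P k : 𝕜) • f (3 * k + 2) x = _
        rw [h7, smul_eq_mul, RCLike.ofReal_mul]
      have h8 : ‖f (3 * k) x‖ ≤ w k * ‖x‖ := ((f (3 * k)).le_opNorm x).trans
        (mul_le_mul_of_nonneg_right ((le_add_of_nonneg_right (norm_nonneg _)).trans (hwf k))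
          (norm_nonneg _))
      have h9 := norm_sub_norm_le ((P k * β k : ℝ) : 𝕜) (f (3 * k) x)
      rw [norm_sub_rev, ← h6, RCLike.norm_ofReal,
        abs_of_nonneg (mul_nonneg (hP0 k) (hβ0 k).le)] at h9
      linarith
    have h10 : ‖S.v k‖ ≤ w k := (le_add_of_nonneg_left (norm_nonneg _)).trans (hwf k)
    have h11 : (N k : ℝ) / N (k + 1) * (P k * β k) = k * w k := by
      have h12 := (hN0 k).ne'
      have h13 := (hN0 (k + 1)).ne'
      have h14 := (hβ0 k).ne'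
      rw [hP]; field_simp
    have h15 := Real.abs_sin_le_one (n * S.a k)
    have h16 := abs_nonneg (Real.sin (n * S.a k))
    have h17 : 0 ≤ w k * ‖x‖ := mul_nonneg (hw0 k).le (norm_nonneg x)
    have h18 : k * w k ≤ |Real.sin (n * S.a k)| * (P k * β k) :=
      h11 ▸ mul_le_mul_of_nonneg_right h4 (mul_nonneg (hP0 k) (hβ0 k).le)
    have h19 := mul_le_mul_of_nonneg_left h5 h16
    have h20 := mul_le_of_le_one_left h17 h15
    have h21 : ‖S.v k‖ * (‖(S.T ^ n) x‖ + ‖x‖) ≤ w k * (‖(S.T ^ n) x‖ + ‖x‖) :=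
      mul_le_mul_of_nonneg_right h10 (by positivity)
    have h22 : w k * (k - 2 * ‖x‖) ≤ w k * ‖(S.T ^ n) x‖ := by nlinarith
    have h23 := le_of_mul_le_mul_left h22 (hw0 k)
    have h24 : (M : ℝ) ≤ k := Nat.cast_le.2 hMk
    linarith
  · induction hx using Submodule.span_induction with
    | mem x hx =>
      obtain ⟨i, rfl⟩ := hx
      refine eventually_atTop.2 ⟨4 * N (i / 3 + 1), fun n hn => ?_⟩
      obtain ⟨m, hm⟩ := Nat.dvd_factorial (Nat.mul_pos (by norm_num) (hNA (i / 3 + 1)).1)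
        (hn.trans n.le_succ)
      refine Sys.pow_fix hs (i / 3) (e i) (fun j hj => ⟨?_, hne _ _ (by omega)⟩) _ m ?_
      · change f (3 * j) (e i) - (P j : 𝕜) • f (3 * j + 2) (e i) = 0
        rw [hne _ _ (by omega), hne _ _ (by omega), smul_zero, sub_zero]
      · change ((n + 1).factorial : ℝ) * (2 * Real.pi / (4 * N (i / 3 + 1))) = _
        have h1 := (hN0 (i / 3 + 1)).ne'
        rw [hm]; push_cast; field_simp
    | zero => exact Eventually.of_forall fun n => map_zero _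
    | add x y _ _ hx hy => exact (hx.and hy).mono fun n hn => by rw [map_add, hn.1, hn.2]
    | smul c x _ hx => exact hx.mono fun n hn => by rw [map_smul, hn]

theorem tendsto_of_finiteDimensional [FiniteDimensional 𝕜 X] {T h : X →L[𝕜] X} {ω : ℕ → ℕ}
    {D : Set X} (hD : Dense D) (hx : ∀ x ∈ D, Tendsto (fun n => (T ^ ω n) x) atTop (𝓝 (h x)))
    (x : X) : Tendsto (fun n => (T ^ ω n) x) atTop (𝓝 (h x)) := by
  let W : Submodule 𝕜 X :=
    { carrier := {x | Tendsto (fun n => (T ^ ω n) x) atTop (𝓝 (h x))}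
      add_mem' := fun {a b} ha hb => by
        simp only [mem_ofPred_eq, map_add]
        exact Tendsto.add ha hb
      zero_mem' := by simp
      smul_mem' := fun c a ha => by
        simp only [mem_ofPred_eq, map_smul]
        exact Tendsto.const_smul ha c }
  have h1 : IsClosed (W : Set X) := Submodule.closed_of_finiteDimensional W
  exact closure_minimal (t := (W : Set X)) hx h1 (hD x)

end Pool.Agent.P.MP_24d2d6_an.EV
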