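import Pool.Agent.P.MP_24d2d6_an.EV.Bio

/-!
A nuclear perturbation of the identity that rotates countably many planes.
-/

open Filter Topology Set

namespace Pool.Agent.P.MP_24d2d6_an.EV

variable {𝕜 X : Type*} [RCLike 𝕜] [NormedAddCommGroup X] [NormedSpace 𝕜 X]

/-- Vectors, functionals and angles. -/
structure Sys (𝕜 X : Type*) [RCLike 𝕜] [NormedAddCommGroup X] [NormedSpace 𝕜 X] where
  E : ℕ → X
  F : ℕ → X
  p : ℕ → X →L[𝕜] 𝕜
  v : ℕ → X →L[𝕜] 𝕜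
  b : ℕ → X →L[𝕜] 𝕜
  a : ℕ → ℝ
  pE : ∀ i j, p i (E j) = if i = j then 1 else 0
  pF : ∀ i j, p i (F j) = 0
  vE : ∀ i j, v i (E j) = 0
  vF : ∀ i j, v i (F j) = if i = j then 1 else 0
  bE : ∀ i j, b i (E j) = 0
  bF : ∀ i j, b i (F j) = 0

namespace Sys

variable (S : Sys 𝕜 X)

/-- The `k`-th block of the perturbation. -/
noncomputable def K (k : ℕ) : X →L[𝕜] X :=
  (((Real.cos (S.a k) - 1 : ℝ) : 𝕜) • S.p k - ((Real.sin (S.a k) : ℝ) : 𝕜) • S.v k).smulRight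
      (S.E k) +
    (((Real.sin (S.a k) : ℝ) : 𝕜) • S.p k + ((Real.cos (S.a k) - 1 : ℝ) : 𝕜) • S.v k).smulRight
      (S.F k)

theorem K_apply (k : ℕ) (x : X) : S.K k x =
    (((Real.cos (S.a k) - 1 : ℝ) : 𝕜) * S.p k x - ((Real.sin (S.a k) : ℝ) : 𝕜) * S.v k x) • S.E k +
    (((Real.sin (S.a k) : ℝ) : 𝕜) * S.p k x + ((Real.cos (S.a k) - 1 : ℝ) : 𝕜) * S.v k x) •
      S.F k := by
  simp only [K, add_apply, ContinuousLinearMap.smulRight_apply,
    sub_apply, smul_apply, smul_eq_mul]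

theorem norm_K_le (k : ℕ) (ha : 0 ≤ S.a k) :
    ‖S.K k‖ ≤ S.a k * (‖S.p k‖ + ‖S.v k‖) * (‖S.E k‖ + ‖S.F k‖) := by
  have hc : ‖((Real.cos (S.a k) - 1 : ℝ) : 𝕜)‖ ≤ S.a k := by
    rw [RCLike.norm_ofReal]
    have h := Real.abs_cos_sub_cos_le (S.a k) 0
    rwa [Real.cos_zero, sub_zero, abs_of_nonneg ha] at h
  have hs : ‖((Real.sin (S.a k) : ℝ) : 𝕜)‖ ≤ S.a k := by
    rw [RCLike.norm_ofReal]
    have h := Real.abs_sin_le_abs (x := S.a k)
    rwa [abs_of_nonneg ha] at h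
  have h1 : ‖((Real.cos (S.a k) - 1 : ℝ) : 𝕜) • S.p k - ((Real.sin (S.a k) : ℝ) : 𝕜) • S.v k‖
      ≤ S.a k * (‖S.p k‖ + ‖S.v k‖) := by
    refine (norm_sub_le _ _).trans ?_
    rw [norm_smul, norm_smul, mul_add]
    gcongr
  have h2 : ‖((Real.sin (S.a k) : ℝ) : 𝕜) • S.p k + ((Real.cos (S.a k) - 1 : ℝ) : 𝕜) • S.v k‖
      ≤ S.a k * (‖S.p k‖ + ‖S.v k‖) := by
    refine (norm_add_le _ _).trans ?_
    rw [norm_smul, norm_smul, mul_add]
    gcongr
  refine (norm_add_le _ _).trans ?_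
  rw [ContinuousLinearMap.norm_smulRight_apply, ContinuousLinearMap.norm_smulRight_apply, mul_add]
  gcongr

/-- The operator. -/
noncomputable def T : X →L[𝕜] X := 1 + ∑' k, S.K k

variable {S} (hs : Summable S.K)
include hs

theorem hasSum_K (x : X) : HasSum (fun k => S.K k x) (S.T x - x) := by
  have h := (ContinuousLinearMap.apply 𝕜 X x).hasSum hs.hasSum
  simpa [T] using h

theorem fun_T (φ : X →L[𝕜] 𝕜) (k : ℕ) (hE : ∀ j, j ≠ k → φ (S.E j) = 0)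
    (hF : ∀ j, j ≠ k → φ (S.F j) = 0) (x : X) : φ (S.T x) = φ x + φ (S.K k x) := by
  have h1 := φ.hasSum (hasSum_K hs x)
  have h2 : HasSum (fun j => φ (S.K j x)) (φ (S.K k x)) := by
    refine hasSum_single k fun j hj => ?_
    rw [K_apply, map_add, map_smul, map_smul, hE j hj, hF j hj, smul_zero, smul_zero, add_zero]
  have h3 := h1.unique h2
  rw [map_sub] at h3
  rw [← h3]; ring

theorem b_T (k : ℕ) (x : X) : S.b k (S.T x) = S.b k x := by
  rw [fun_T hs (S.b k) k (fun j _ => S.bE k j) (fun j _ => S.bF k j), K_apply, map_add, map_smul,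
    map_smul, S.bE, S.bF, smul_zero, smul_zero, add_zero, add_zero]

theorem p_T (k : ℕ) (x : X) : S.p k (S.T x) =
    ((Real.cos (S.a k) : ℝ) : 𝕜) * S.p k x - ((Real.sin (S.a k) : ℝ) : 𝕜) * S.v k x := by
  rw [fun_T hs (S.p k) k (fun j hj => by rw [S.pE, if_neg hj.symm]) (fun j _ => S.pF k j),
    K_apply, map_add, map_smul, map_smul, S.pE, S.pF, if_pos rfl]
  push_cast
  simp only [smul_eq_mul]
  ring

theorem v_T (k : ℕ) (x : X) : S.v k (S.T x) =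
    ((Real.sin (S.a k) : ℝ) : 𝕜) * S.p k x + ((Real.cos (S.a k) : ℝ) : 𝕜) * S.v k x := by
  rw [fun_T hs (S.v k) k (fun j _ => S.vE k j) (fun j hj => by rw [S.vF, if_neg hj.symm]),
    K_apply, map_add, map_smul, map_smul, S.vE, S.vF, if_pos rfl]
  push_cast
  simp only [smul_eq_mul]
  ring

theorem pv_pow (k : ℕ) (x : X) (n : ℕ) :
    S.p k ((S.T ^ n) x) = ((Real.cos (n * S.a k) : ℝ) : 𝕜) * S.p k x
        - ((Real.sin (n * S.a k) : ℝ) : 𝕜) * S.v k x ∧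
      S.v k ((S.T ^ n) x) = ((Real.sin (n * S.a k) : ℝ) : 𝕜) * S.p k x
        + ((Real.cos (n * S.a k) : ℝ) : 𝕜) * S.v k x := by
  induction n with
  | zero => simp
  | succ n ih =>
    have h1 : (((n + 1 : ℕ) : ℝ)) * S.a k = n * S.a k + S.a k := by push_cast; ring
    rw [pow_succ', mul_apply_eq_comp, p_T hs, v_T hs, ih.1, ih.2, h1, Real.cos_add, Real.sin_add]
    simp only [RCLike.ofReal_add, RCLike.ofReal_sub, RCLike.ofReal_mul]
    constructor <;> ring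

theorem pow_block (k : ℕ) (x : X) (hx : ∀ j, j ≠ k → S.p j x = 0 ∧ S.v j x = 0) (n : ℕ) :
    (S.T ^ n) x = x + (S.p k ((S.T ^ n) x) - S.p k x) • S.E k
      + (S.v k ((S.T ^ n) x) - S.v k x) • S.F k := by
  induction n with
  | zero => simp
  | succ n ih =>
    have h1 : HasSum (fun j => S.K j ((S.T ^ n) x)) (S.K k ((S.T ^ n) x)) := by
      refine hasSum_single k fun j hj => ?_
      rw [K_apply, (pv_pow hs j x n).1, (pv_pow hs j x n).2, (hx j hj).1, (hx j hj).2]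
      simp
    have h2 := (hasSum_K hs ((S.T ^ n) x)).unique h1
    rw [pow_succ', mul_apply_eq_comp, p_T hs, v_T hs]
    rw [K_apply, sub_eq_iff_eq_add] at h2
    rw [h2]
    generalize S.p k ((S.T ^ n) x) = P at ih ⊢
    generalize S.v k ((S.T ^ n) x) = V at ih ⊢
    rw [ih]
    push_cast
    module

theorem pow_fix (k : ℕ) (x : X) (hx : ∀ j, j ≠ k → S.p j x = 0 ∧ S.v j x = 0) (n m : ℕ)
    (h : n * S.a k = m * (2 * Real.pi)) : (S.T ^ n) x = x := by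
  rw [pow_block hs k x hx n, (pv_pow hs k x n).1, (pv_pow hs k x n).2, h,
    Real.cos_nat_mul_two_pi]
  have h1 : Real.sin (m * (2 * Real.pi)) = 0 := by
    have h2 := Real.sin_nat_mul_pi (2 * m)
    rw [← h2]; congr 1; push_cast; ring
  rw [h1]
  simp

theorem lower (k : ℕ) (x : X) (n : ℕ) :
    |Real.sin (n * S.a k)| * ‖S.p k x‖ ≤ ‖S.v k‖ * (‖(S.T ^ n) x‖ + ‖x‖) := by
  have h1 := (pv_pow hs k x n).2
  have h2 : ((Real.sin (n * S.a k) : ℝ) : 𝕜) * S.p k x =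
      S.v k ((S.T ^ n) x) - ((Real.cos (n * S.a k) : ℝ) : 𝕜) * S.v k x := by rw [h1]; ring
  have h3 := congrArg norm h2
  rw [norm_mul, RCLike.norm_ofReal] at h3
  rw [h3, mul_add]
  refine (norm_sub_le _ _).trans (add_le_add ((S.v k).le_opNorm _) ?_)
  rw [norm_mul, RCLike.norm_ofReal]
  exact (mul_le_of_le_one_left (norm_nonneg _) (Real.abs_cos_le_one _)).trans ((S.v k).le_opNorm _)

end Sys

end Pool.Agent.P.MP_24d2d6_an.EV
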